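import Pool.Agent.H85.TRN.ST
import Pool.Agent.H49.TRO.S1

/-!
# TRO: the first layer
-/

set_option autoImplicit false

namespace Pool.TRO

open Finset Pool.TRN Pool.TRN.St

theorem rct_empty (m : ℕ) (D : Finset (ℕ × ℕ)) (h : ∀ a ∈ D, False) : Cov m 0 D :=
  ⟨Fin.elim0, fun _ _ a ha => (h a ha).elim⟩

theorem t_rct (h1 : PELStmt) (h2 : CUTStmt) (h3 : SBSStmt) : RCTStmt := by
  intro d i P c h hh hc
  obtain ⟨w, hw⟩ : ∃ w, w = d + 2 + i := ⟨_, rfl⟩
  rw [← hw] at hc
  have key : ∀ n p : ℕ, p + n = P →
      Cov (d + 1) (2 * n) ((Finset.range c ×ˢ Finset.range h).filter fun a => p * w ≤ a.1) := by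
    intro n
    induction n with
    | zero =>
      intro p hp
      refine rct_empty _ _ fun a ha => ?_
      rw [Finset.mem_filter, Finset.mem_product, Finset.mem_range, Finset.mem_range] at ha
      have e : p = P := by omega
      subst e
      omega
    | succ n ih =>
      intro p hp
      have ih' := ih (p + 1) (by omega)
      obtain ⟨A, hA⟩ : ∃ A, A = p * w := ⟨_, rfl⟩
      have hA' : (p + 1) * w = A + w := by rw [hA]; ring
      rw [hA'] at ih'
      rw [← hA]
      have c1 : Cov (d + 1) 1 ((Finset.range c ×ˢ Finset.range h).filter fun a =>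
          A ≤ a.1 ∧ a.1 < A + w ∧ a.1 + a.2 ≤ A + d) := by
        refine piece h1 (d + 1) 0 _ (fun v => v) (fun _ => A) (fun v => A + (d + 1 - v)) ?_ ?_ ?_
        · intro b hb
          rw [Finset.mem_filter] at hb
          obtain ⟨_, h5, h6, h7⟩ := hb
          simp only [zero_mul, zero_add]
          omega
        · intro b hb
          rw [Finset.mem_filter] at hb
          obtain ⟨_, h5, h6, h7⟩ := hb
          simp only [zero_mul, zero_add]
          omega
        · intro a _ b _ hab
          exact hab
      have hup : ∀ a ∈ (Finset.range c ×ˢ Finset.range h).filter (fun a =>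
          A ≤ a.1 ∧ a.1 < A + w ∧ A + d < a.1 + a.2), i + a.2 ≤ d := by
        intro a ha
        rw [Finset.mem_filter, Finset.mem_product, Finset.mem_range, Finset.mem_range] at ha
        omega
      have c2 : Cov (d + 1) 1 ((Finset.range c ×ˢ Finset.range h).filter fun a =>
          A ≤ a.1 ∧ a.1 < A + w ∧ A + d < a.1 + a.2) := by
        refine piece h1 (d + 1) 0 _ (fun v => d - (i + v)) (fun v => A + d + 1 - v)
          (fun _ => A + w) ?_ ?_ ?_
        · intro b hb
          rw [Finset.mem_filter] at hb
          obtain ⟨_, h5, h6, h7⟩ := hb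
          simp only [zero_mul, zero_add]
          omega
        · intro b hb
          have h8 := hup b hb
          rw [Finset.mem_filter] at hb
          obtain ⟨_, h5, h6, h7⟩ := hb
          simp only [zero_mul, zero_add]
          omega
        · intro a ha b hb hab
          have h8 := hup a ha
          have h9 := hup b hb
          simp only [zero_mul, zero_add] at hab ⊢
          omega
      have c12 := h2 (d + 1) 1 1 1 1 _ _ (fun a ha b hb => by
        rw [Finset.mem_filter] at ha hb
        have h5 := ha.2.2.2
        have h6 := hb.2.2.2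
        omega) c1 c2
      have c3 := h2 (d + 1) (1 + 1) (2 * n) 1 0 _ _ (fun a ha b hb => by
        rw [Finset.mem_union, Finset.mem_filter, Finset.mem_filter] at ha
        rw [Finset.mem_filter] at hb
        have h5 := hb.2
        rcases ha with ha | ha
        · have h6 := ha.2.2.1
          omega
        · have h6 := ha.2.2.1
          omega) c12 ih'
      have e : 1 + 1 + 2 * n = 2 * (n + 1) := by ring
      rw [e] at c3
      refine h3 _ _ _ _ (fun a ha => ?_) c3
      rw [Finset.mem_filter] at ha
      rw [Finset.mem_union, Finset.mem_union, Finset.mem_filter, Finset.mem_filter,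
        Finset.mem_filter]
      by_cases h5 : a.1 < A + w
      · left
        by_cases h6 : a.1 + a.2 ≤ A + d
        · exact Or.inl ⟨ha.1, ha.2, h5, h6⟩
        · exact Or.inr ⟨ha.1, ha.2, h5, by omega⟩
      · exact Or.inr ⟨ha.1, by omega⟩
  refine h3 _ _ _ _ (fun a ha => ?_) (key P 0 (by omega))
  rw [Finset.mem_filter]
  exact ⟨ha, by simp⟩

end Pool.TRO
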